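import Pool.Agent.Y121.ZI.Stm

/-! Project ZI (helper121), part DUAL: transposes, dual objects, coevaluation. -/

set_option autoImplicit false

open scoped TensorProduct

universe u v w

namespace Pool.Agent.Y274.ZI

open Module Pool.Agent.Y133.Half Pool.Agent.Y121.ZI Pool.Agent.Y121.ZI.NCTheory

section gen

variable {K : Type u} [Field K] {V : Type v} [AddCommGroup V] [Module K V]
  [FiniteDimensional K V]

theorem trace_sum {n : ℕ} (a : Fin n → V) (φ : Fin n → V →ₗ[K] K)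
    (h : ∀ x, ∑ i, φ i x • a i = x) (g : V →ₗ[K] V) :
    LinearMap.trace K V g = ∑ i, φ i (g (a i)) := by
  have h1 : g = ∑ i, dualTensorHom K V V (φ i ⊗ₜ g (a i)) := by
    ext x
    conv_lhs => rw [← h x]
    rw [map_sum, LinearMap.sum_apply]
    refine Finset.sum_congr rfl fun i _ => ?_
    rw [map_smul, dualTensorHom_apply]
  conv_lhs => rw [h1]
  rw [map_sum]
  refine Finset.sum_congr rfl fun i _ => ?_
  rw [LinearMap.trace_eq_contract_apply, contractLeft_apply]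

end gen

variable {K : Type u} [Field K] {T : NCTheory.{u, v, w} K}

theorem exists_lin {A B : T.Obj} {V : Type*} [AddCommGroup V] [Module K V]
    (β : T.H A →ₗ[K] T.H B →ₗ[K] V) :
    ∃ Λ : T.H (T.ten A B) →ₗ[K] V, ∀ x y, Λ (kx x y) = β x y := by
  refine ⟨TensorProduct.lift β ∘ₗ (T.kun A B).symm.toLinearMap, fun x y => ?_⟩
  simp [kx]

/-- the duality data of `Z` -/
structure DD (Z : T.Obj) where
  c₀ : T.H T.one →ₗ[K] T.H (T.ten Z (T.op Z))
  hc₀ : c₀ ∈ T.S T.one (T.ten Z (T.op Z))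
  d₀ : T.H (T.ten (T.op Z) Z) →ₗ[K] T.H T.one
  hd₀ : d₀ ∈ T.S (T.ten (T.op Z) Z) T.one
  n : ℕ
  aa : Fin n → T.H Z
  α : Fin n → T.H (T.op Z)
  bb : T.H (T.op Z) →ₗ[K] T.H Z →ₗ[K] K
  h1 : c₀ T.e = ∑ i, kx (aa i) (α i)
  h2 : ∀ ζ x, d₀ (kx ζ x) = bb ζ x • T.e
  h3 : ∀ x, ∑ i, bb (α i) x • aa i = x
  h4 : ∀ ζ, ∑ i, bb ζ (aa i) • α i = ζ

theorem exists_DD (Z : T.Obj) : Nonempty (DD Z) := by
  obtain ⟨c₀, hc₀, d₀, hd₀, n, a, α, b, h1, h2, h3, h4⟩ := T.cor_op Z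
  exact ⟨⟨c₀, of_cor hc₀, d₀, of_cor hd₀, n, a, α, b, h1, h2, h3, h4⟩⟩

variable {Z : T.Obj} (D : DD Z)

theorem e_ne : T.e ≠ 0 := T.line.1

theorem par_e : T.par T.one T.e = T.e := T.line.2.2

include D in
theorem bb_par (ζ : T.H (T.op Z)) (x : T.H Z) :
    D.bb (T.par _ ζ) x = D.bb ζ (T.par _ x) := by
  have h1 : ∀ (ζ : T.H (T.op Z)) (x : T.H Z), D.bb (T.par _ ζ) (T.par _ x) = D.bb ζ x := by
    intro ζ x
    have h2 : D.d₀ (T.par _ (kx ζ x)) = T.par _ (D.d₀ (kx ζ x)) :=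
      congrArg (fun f => f (kx ζ x)) (S_par D.hd₀)
    rw [par_kx, D.h2, D.h2, map_smul, par_e] at h2
    exact smul_left_injective K e_ne h2
  have h3 := h1 ζ (T.par _ x)
  rw [T.par_par Z x] at h3
  exact h3

/-- the isomorphism of `H (op Z)` with the dual of `H Z` -/
noncomputable def be : T.H (T.op Z) ≃ₗ[K] Dual K (T.H Z) :=
  LinearEquiv.ofBijective D.bb (by
    constructor
    · rw [injective_iff_map_eq_zero]
      intro ζ hζ
      rw [← D.h4 ζ, hζ]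
      simp
    · intro φ
      refine ⟨∑ i, φ (D.aa i) • D.α i, ?_⟩
      apply LinearMap.ext
      intro x
      rw [map_sum, LinearMap.sum_apply]
      conv_rhs => rw [← D.h3 x]
      rw [map_sum]
      refine Finset.sum_congr rfl fun i _ => ?_
      rw [map_smul, map_smul, LinearMap.smul_apply, smul_eq_mul, smul_eq_mul, mul_comm])

/-- the transpose -/
noncomputable def tr (f : T.H Z →ₗ[K] T.H Z) : T.H (T.op Z) →ₗ[K] T.H (T.op Z) :=
  (be D).symm.toLinearMap ∘ₗ f.dualMap ∘ₗ (be D).toLinearMap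

theorem bb_tr (f : T.H Z →ₗ[K] T.H Z) (ζ : T.H (T.op Z)) (x : T.H Z) :
    D.bb (tr D f ζ) x = D.bb ζ (f x) := by
  have h1 : be D (tr D f ζ) = f.dualMap (be D ζ) := by
    simp [tr]
  exact congrArg (fun φ : Dual K (T.H Z) => φ x) h1

theorem tr_eq (f : T.H Z →ₗ[K] T.H Z) (ζ : T.H (T.op Z)) :
    tr D f ζ = ∑ i, D.bb ζ (f (D.aa i)) • D.α i := by
  rw [← D.h4 (tr D f ζ)]
  refine Finset.sum_congr rfl fun i _ => ?_
  rw [bb_tr]

theorem tr_mem {f : T.H Z →ₗ[K] T.H Z} (hf : f ∈ T.S Z Z) : tr D f ∈ T.S (T.op Z) (T.op Z) := by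
  obtain ⟨-, -, g, hg, -, hg2⟩ := exists_runit (T := T) (T.op Z)
  obtain ⟨-, -, α', hα', -, hα2⟩ := exists_assoc (T := T) (T.op Z) Z (T.op Z)
  obtain ⟨l, hl, -, -, hl1, -⟩ := exists_unit (T := T) (T.op Z)
  have h1 : tr D f = l ∘ₗ ex (D.d₀ ∘ₗ ex (LinearMap.id : T.H (T.op Z) →ₗ[K] _) f)
      (LinearMap.id : T.H (T.op Z) →ₗ[K] _) ∘ₗ α' ∘ₗ
      ex (LinearMap.id : T.H (T.op Z) →ₗ[K] _) D.c₀ ∘ₗ g := by
    apply LinearMap.ext
    intro ζ
    have hsum : (kx ζ (∑ i, kx (D.aa i) (D.α i)) : T.H (T.ten (T.op Z) (T.ten Z (T.op Z)))) =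
        ∑ i, kx ζ (kx (D.aa i) (D.α i)) := by
      unfold kx
      rw [TensorProduct.tmul_sum, map_sum]
    simp only [LinearMap.comp_apply]
    rw [hg2, ex_kx, D.h1, LinearMap.id_apply, hsum, map_sum, map_sum, map_sum, tr_eq]
    refine Finset.sum_congr rfl fun i _ => ?_
    rw [hα2, ex_kx, LinearMap.comp_apply, ex_kx, LinearMap.id_apply, LinearMap.id_apply, D.h2,
      kx_smul_left, map_smul, hl1]
  rw [h1]
  exact S_comp (S_comp (S_comp (S_comp hg (S_ex S_id D.hc₀)) hα')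
    (S_ex (S_comp (S_ex S_id hf) D.hd₀) S_id)) hl

theorem tr_idem {f : T.H Z →ₗ[K] T.H Z} (hf : f ∘ₗ f = f) : tr D f ∘ₗ tr D f = tr D f := by
  apply LinearMap.ext
  intro ζ
  apply (be D).injective
  apply LinearMap.ext
  intro x
  change D.bb (tr D f (tr D f ζ)) x = D.bb (tr D f ζ) x
  rw [bb_tr, bb_tr, bb_tr]
  have := congrArg (fun g => g x) hf
  simp only [LinearMap.comp_apply] at this
  rw [this]

theorem tr_finrank (f : T.H Z →ₗ[K] T.H Z) :
    finrank K (LinearMap.range (tr D f)) = finrank K (LinearMap.range f) := by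
  have h1 : LinearMap.range (tr D f) =
      (LinearMap.range f.dualMap).map (be D).symm.toLinearMap := by
    unfold tr
    rw [LinearMap.range_comp, LinearMap.range_comp_of_range_eq_top _ (be D).range]
  rw [h1]
  have h2 := LinearEquiv.finrank_map_eq (be D).symm (LinearMap.range f.dualMap)
  exact h2.trans (LinearMap.finrank_range_dualMap_eq_finrank_range f)

variable [CharZero K]

theorem ev_sub_od {A : T.Obj} (x : T.H A) : ev x - od x = T.par A x := by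
  rw [ev, od, ← smul_sub]
  have h : x + T.par A x - (x - T.par A x) = (2 : K) • T.par A x := by
    rw [two_smul]
    abel
  rw [h, smul_smul, inv_mul_cancel₀ two_ne_zero, one_smul]

theorem tr_DP {f : T.H Z →ₗ[K] T.H Z} (hf : f ∈ T.S Z Z) : DP Z (T.op Z) f (tr D f) := by
  obtain ⟨s, hs, hs1⟩ := exists_swap Z (T.op Z)
  refine ⟨D.c₀, D.hc₀, D.d₀ ∘ₗ s, S_comp hs D.hd₀, fun b' => ?_⟩
  have hd : ∀ x ζ, (D.d₀ ∘ₗ s) (kx x ζ) = D.bb ζ (T.par _ x) • T.e := by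
    intro x ζ
    rw [LinearMap.comp_apply, hs1, map_add, D.h2, D.h2, ← add_smul, bb_par, par_od, ← map_add,
      ← sub_eq_add_neg, ev_sub_od]
  rw [D.h1, map_sum, map_sum]
  have h1 : ∀ i, (D.d₀ ∘ₗ s) (ex b' (tr D f) (kx (D.aa i) (D.α i))) =
      D.bb (D.α i) ((T.par Z ∘ₗ f ∘ₗ b') (D.aa i)) • T.e := by
    intro i
    rw [ex_kx, hd, bb_tr]
    have h2 : f (T.par Z (b' (D.aa i))) = T.par Z (f (b' (D.aa i))) :=
      congrArg (fun g => g (b' (D.aa i))) (S_par hf)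
    rw [h2]
    rfl
  rw [Finset.sum_congr rfl fun i _ => h1 i, ← Finset.sum_smul,
    trace_sum D.aa (fun i => D.bb (D.α i)) D.h3]

theorem op_DP : DP (T.op Z) Z LinearMap.id LinearMap.id := by
  obtain ⟨D⟩ := exists_DD Z
  obtain ⟨s, hs, hs1⟩ := exists_swap Z (T.op Z)
  refine ⟨s ∘ₗ D.c₀, S_comp D.hc₀ hs, D.d₀, D.hd₀, fun b' => ?_⟩
  -- the functional
  obtain ⟨Λ, hΛ⟩ := exists_lin (T := T) (A := Z) (B := T.op Z)
    ((((D.bb ∘ₗ b') ∘ₗ T.par (T.op Z)).flip) ∘ₗ ((2 : K)⁻¹ • (LinearMap.id - T.par Z)))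
  have hΛ' : ∀ x ζ, Λ (kx x ζ) = D.bb (b' (T.par _ ζ)) (od x) := fun x ζ => by
    rw [hΛ]
    rfl
  have hpar : T.par _ (D.c₀ T.e) = D.c₀ T.e := by
    have h2 : D.c₀ (T.par _ T.e) = T.par _ (D.c₀ T.e) :=
      congrArg (fun f => f T.e) (S_par D.hc₀)
    rw [par_e] at h2
    exact h2.symm
  have hpo : ∀ x : T.H Z, od (T.par Z x) = -od x := fun x => by
    rw [od, od, T.par_par Z x, ← smul_neg, neg_sub]
  have hneg : ∑ i, D.bb (b' (T.par _ (D.α i))) (od (D.aa i)) =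
      -∑ i, D.bb (b' (D.α i)) (od (D.aa i)) := by
    have h3 := congrArg Λ hpar
    rw [D.h1, map_sum, map_sum, map_sum] at h3
    simp only [par_kx, hΛ'] at h3
    rw [← h3, ← Finset.sum_neg_distrib]
    refine Finset.sum_congr rfl fun i _ => ?_
    rw [T.par_par (T.op Z), hpo, map_neg]
  have h1 : D.d₀ (ex b' (LinearMap.id : T.H Z →ₗ[K] T.H Z) ((s ∘ₗ D.c₀) T.e)) =
      (∑ i, (D.bb (b' (D.α i)) (ev (D.aa i)) + D.bb (b' (T.par _ (D.α i))) (od (D.aa i)))) •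
        T.e := by
    rw [LinearMap.comp_apply, D.h1, map_sum, map_sum, map_sum, Finset.sum_smul]
    refine Finset.sum_congr rfl fun i _ => ?_
    rw [hs1, map_add, map_add, ex_kx, ex_kx, D.h2, D.h2, LinearMap.id_apply, LinearMap.id_apply,
      add_smul]
  rw [h1, Finset.sum_add_distrib, hneg, ← sub_eq_add_neg, ← Finset.sum_sub_distrib]
  congr 1
  rw [trace_sum D.α (fun i => D.bb.flip (D.aa i)) D.h4]
  refine Finset.sum_congr rfl fun i _ => ?_
  rw [← map_sub, ev_sub_od, ← bb_par]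
  rfl

section main

variable (T)

theorem dual1 : SDual1 T := by
  intro Z f hf
  obtain ⟨D⟩ := exists_DD Z
  exact ⟨tr D f, tr_mem D hf, tr_DP D hf, tr_idem D, tr_finrank D f⟩

theorem dual2 : SDual2 T := by
  intro Z
  obtain ⟨D⟩ := exists_DD Z
  refine ⟨?_, op_DP, ?_⟩
  · have h1 := tr_DP D (S_id (A := Z))
    have h2 : tr D LinearMap.id = LinearMap.id := by
      apply LinearMap.ext
      intro ζ
      rw [tr_eq]
      exact D.h4 ζ
    rw [h2] at h1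
    exact h1
  · rw [(be D).finrank_eq]
    exact Subspace.dual_finrank_eq

omit [CharZero K] in
theorem coev : SCoev T := by
  intro X
  obtain ⟨D⟩ := exists_DD X
  refine ⟨D.c₀, D.hc₀, fun u hu => ?_⟩
  apply LinearMap.ext
  intro y
  obtain ⟨Λ, hΛ⟩ := exists_lin (T := T) (A := X) (B := T.op X)
    ((LinearMap.lsmul K (T.H X)).flip.compr₂ (LinearMap.id : T.H X →ₗ[K] T.H X) |>.compl₂
      (D.bb.flip y))
  have hΛ' : ∀ x ζ, Λ (kx x ζ) = D.bb ζ y • x := fun x ζ => by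
    rw [hΛ]
    rfl
  have h1 := congrArg Λ hu
  change Λ (ex u (LinearMap.id : T.H (T.op X) →ₗ[K] T.H (T.op X)) (D.c₀ T.e)) = Λ 0 at h1
  rw [D.h1, map_sum, map_sum, map_zero] at h1
  have h2 : ∀ i, Λ (ex u (LinearMap.id : T.H (T.op X) →ₗ[K] T.H (T.op X))
      (kx (D.aa i) (D.α i))) = u (D.bb (D.α i) y • D.aa i) := fun i => by
    rw [ex_kx, hΛ', LinearMap.id_apply, map_smul]
  rw [Finset.sum_congr rfl fun i _ => h2 i, ← map_sum, D.h3] at h1
  exact h1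

end main

end Pool.Agent.Y274.ZI
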